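import Mathlib

/-!
# A ring of weak global dimension at most two with a nilpotent element of non zero trace: definitions

This folder (MP_8f66f0_al_Cex) proves: there is a unital ring `R` in which all left and all right
kernels of finite matrices are flat (so the weak global dimension of `R` is at most two, and `R` is
regular in the sense of Vogel: every module lies in the least class which contains the finitely
generated projective modules and is closed under filtered colimits and under two out of three in
short exact sequences), together with `eps` in `R` with `eps ^ 2 = 0` and a trace `tau` on `R` with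
`tau eps = 1`.  Hence `NK_1(R)` and the reduced Nil group of `R` are not zero: vanishing of
Waldhausen's Nil groups for all such rings is false, and the finiteness condition (C1) (or
coherence) in the vanishing theorems of this project is needed.

Idea (one step).  For a left module `V` over a ring `R` with a trace `tau`, the free vector space on
the semigroup `Hom_R(V, R) x V`, `(f, v) (f', v') = (f, f'(v) v')`, has the trace
`(f, v) |-> tau (f v)`.  Add a unit and divide by the radical of the trace form.  If `V` contains
`R` as a direct summand, `R` embeds; if `V` contains all the modules `{x | x h = 0}`, `h` a finite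
matrix over `R`, then all equations `a e = 0 = e h` are solved as `e = b c`, `a b = 0`, `c h = 0` in
the new ring.  Iterate.
-/

namespace Pool.Agent.WDTwo

universe u

/-- All kernels of finite matrices over `R` are flat, on the left and on the right (equational
criterion for flatness; the condition is symmetric): whenever `a e = 0` and `e h = 0`, there are
`b`, `c` with `e = b c`, `a b = 0`, `c h = 0`. -/
def KernelsFlat (R : Type u) [Ring R] : Prop :=
  ∀ (r p q t : ℕ) (a : Matrix (Fin r) (Fin p) R) (e : Matrix (Fin p) (Fin q) R)
    (h : Matrix (Fin q) (Fin t) R), a * e = 0 → e * h = 0 →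
    ∃ (s : ℕ) (b : Matrix (Fin p) (Fin s) R) (c : Matrix (Fin s) (Fin q) R),
      e = b * c ∧ a * b = 0 ∧ c * h = 0

/-- An augmented algebra over a field `k`, with a trace which vanishes at one. -/
structure TrAlg (k : Type u) [Field k] where
  /-- the carrier -/
  A : Type u
  [ring : Ring A]
  [alg : Algebra k A]
  /-- the augmentation -/
  aug : A →ₐ[k] k
  /-- the trace -/
  tr : A →ₗ[k] k
  tr_comm : ∀ x y, tr (x * y) = tr (y * x)
  tr_one : tr 1 = 0

attribute [instance] TrAlg.ring TrAlg.alg

/-- One step: all the equations over `X` are solved in `Y`. -/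
def S_Step : Prop :=
  ∀ (k : Type u) [Field k] (X : TrAlg k), ∃ (Y : TrAlg k) (φ : X.A →ₐ[k] Y.A),
    (∀ x, Y.aug (φ x) = X.aug x) ∧ (∀ x, Y.tr (φ x) = X.tr x) ∧
    ∀ (r p q t : ℕ) (a : Matrix (Fin r) (Fin p) X.A) (e : Matrix (Fin p) (Fin q) X.A)
      (h : Matrix (Fin q) (Fin t) X.A), a * e = 0 → e * h = 0 →
      ∃ (s : ℕ) (b : Matrix (Fin p) (Fin s) Y.A) (c : Matrix (Fin s) (Fin q) Y.A),
        e.map φ = b * c ∧ a.map φ * b = 0 ∧ c * h.map φ = 0

/-- The limit of the steps. -/
def S_Lim : Prop :=
  S_Step.{u} → ∀ (k : Type u) [Field k] (X : TrAlg k),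
    ∃ (R : Type u) (_ : Ring R) (_ : Algebra k R) (φ : X.A →ₐ[k] R) (τ : R →ₗ[k] k),
      KernelsFlat R ∧ (∀ x y, τ (x * y) = τ (y * x)) ∧ ∀ x, τ (φ x) = X.tr x

/-- The unit `1 + eps T` (in the upper left corner) is not a product of elementary matrices and of
constant matrices, as soon as some trace of `eps` is not zero. -/
def S_NK : Prop :=
  ∀ (R : Type u) [Ring R] (M : Type u) [AddCommGroup M] (τ : R →+ M),
    (∀ x y, τ (x * y) = τ (y * x)) → ∀ ε : R, τ ε ≠ 0 →
    ∀ (n : ℕ) (g : (Matrix (Fin (n + 1)) (Fin (n + 1)) (Polynomial R))ˣ),
      g.val = 1 + Matrix.single 0 0 (Polynomial.C ε * Polynomial.X) →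
      g ∉ Subgroup.closure
        ({u : (Matrix (Fin (n + 1)) (Fin (n + 1)) (Polynomial R))ˣ |
            ∃ i j : Fin (n + 1), i ≠ j ∧ ∃ c : Polynomial R, u.val = 1 + Matrix.single i j c} ∪
         {u : (Matrix (Fin (n + 1)) (Fin (n + 1)) (Polynomial R))ˣ |
            ∃ v : (Matrix (Fin (n + 1)) (Fin (n + 1)) R)ˣ, u.val = v.val.map Polynomial.C})

end Pool.Agent.WDTwo
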