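import Pool.Agent.Lib.MP_8f66f0_al_Cex.Defs

/-! # The limit of the steps -/

set_option autoImplicit false

namespace Pool.Agent.WDTwo

universe u

namespace LimAux

section chain

variable {k : Type u} [Field k] (Z : ℕ → TrAlg k) (φ : ∀ n, (Z n).A →ₐ[k] (Z (n + 1)).A)

/-- The maps of the chain. -/
noncomputable def mp (i j : ℕ) (h : i ≤ j) : (Z i).A →ₐ[k] (Z j).A :=
  Nat.leRec (motive := fun j _ => (Z i).A →ₐ[k] (Z j).A) (AlgHom.id k _)
    (fun n _ g => (φ n).comp g) h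

theorem mp_self (i : ℕ) (x : (Z i).A) : mp Z φ i i le_rfl x = x := by
  unfold mp
  rw [Nat.leRec_self]
  rfl

theorem mp_succ (i j : ℕ) (h : i ≤ j) (h' : i ≤ j + 1) (x : (Z i).A) :
    mp Z φ i (j + 1) h' x = φ j (mp Z φ i j h x) := by
  unfold mp
  rw [Nat.leRec_succ _ _ h]
  rfl

theorem mp_mp (i j l : ℕ) (h : i ≤ j) (h' : j ≤ l) (x : (Z i).A) :
    mp Z φ j l h' (mp Z φ i j h x) = mp Z φ i l (h.trans h') x := by
  induction l, h' using Nat.le_induction with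
  | base => rw [mp_self]
  | succ l hl ih => rw [mp_succ Z φ j l hl, ih, mp_succ Z φ i l (h.trans hl)]

instance ds : DirectedSystem (fun n => (Z n).A) (fun i j h => mp Z φ i j h) where
  map_self i x := mp_self Z φ i x
  map_map _ _ _ h h' x := mp_mp Z φ _ _ _ h h' x

theorem exists_lim (htr : ∀ n x, (Z (n + 1)).tr (φ n x) = (Z n).tr x) :
    ∃ (R : Type u) (_ : Ring R) (_ : Algebra k R) (io : ∀ n, (Z n).A →ₐ[k] R) (τ : R →ₗ[k] k),
      (∀ n x, io (n + 1) (φ n x) = io n x) ∧ (∀ r, ∃ n x, io n x = r) ∧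
      (∀ n x, io n x = 0 → ∃ (m : ℕ) (h : n ≤ m), mp Z φ n m h x = 0) ∧
      ∀ n x, τ (io n x) = (Z n).tr x := by
  have htr' : ∀ (i j : ℕ) (h : i ≤ j) (x : (Z i).A), (Z i).tr x = (Z j).tr (mp Z φ i j h x) := by
    intro i j h x
    induction j, h using Nat.le_induction with
    | base => rw [mp_self]
    | succ l hl ih => rw [mp_succ Z φ i l hl, htr, ← ih]
  let R := DirectLimit (fun n => (Z n).A) (mp Z φ)
  let io : ∀ n, (Z n).A →ₐ[k] R := fun n => DirectLimit.Algebra.of (fun n => (Z n).A) (mp Z φ) n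
  let t : R → k := DirectLimit.lift (mp Z φ) (fun n x => (Z n).tr x) htr'
  let τ : R →ₗ[k] k :=
    { toFun := t
      map_add' := by
        intro x y
        induction x, y using DirectLimit.induction₂ with
        | ih i x y =>
          rw [DirectLimit.add_def]
          exact map_add (Z i).tr x y
      map_smul' := by
        intro c x
        induction x using DirectLimit.induction with
        | ih i x =>
          rw [DirectLimit.smul_def]
          exact map_smul (Z i).tr c x }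
  refine ⟨R, inferInstance, inferInstance, io, τ, ?_, ?_, ?_, ?_⟩
  · intro n x
    have h1 := DirectLimit.Algebra.of_f (R := k) (G := fun n => (Z n).A) (f := mp Z φ)
      (Nat.le_succ n) x
    rw [mp_succ Z φ n n le_rfl, mp_self] at h1
    exact h1
  · intro r
    obtain ⟨n, x, h⟩ := DirectLimit.exists_eq_mk (f := fun i j h => mp Z φ i j h) r
    exact ⟨n, x, h.symm⟩
  · intro n x h
    obtain ⟨m, hm, h1⟩ := (DirectLimit.exists_eq_zero (f := mp Z φ) (⟨n, x⟩ : Σ n, (Z n).A)).1 h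
    exact ⟨m, hm, h1⟩
  · intro n x
    rfl

variable {R : Type u} [Ring R] [Algebra k R] (io : ∀ n, (Z n).A →ₐ[k] R)

theorem io_mp (h1 : ∀ n x, io (n + 1) (φ n x) = io n x) (i j : ℕ) (h : i ≤ j) (x : (Z i).A) :
    io j (mp Z φ i j h x) = io i x := by
  induction j, h using Nat.le_induction with
  | base => rw [mp_self]
  | succ l hl ih => rw [mp_succ Z φ i l hl, h1, ih]

/-- Finitely many elements of the limit are in one stage. -/
theorem lift_fin (h1 : ∀ n x, io (n + 1) (φ n x) = io n x) (h2 : ∀ r, ∃ n x, io n x = r)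
    {I : Type} [Fintype I] (x : I → R) :
    ∃ N₀ : ℕ, ∀ N, N₀ ≤ N → ∃ y : I → (Z N).A, ∀ i, io N (y i) = x i := by
  choose n y hy using fun i => h2 (x i)
  refine ⟨∑ i, n i, fun N hN => ?_⟩
  have hn : ∀ i, n i ≤ N := fun i =>
    (Finset.single_le_sum (f := n) (fun _ _ => Nat.zero_le _) (Finset.mem_univ i)).trans hN
  exact ⟨fun i => mp Z φ (n i) N (hn i) (y i), fun i => by rw [io_mp Z φ io h1, hy]⟩

/-- Finitely many elements of a stage which are zero in the limit are zero in a later stage. -/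
theorem zero_fin (h3 : ∀ n x, io n x = 0 → ∃ (m : ℕ) (h : n ≤ m), mp Z φ n m h x = 0)
    {I : Type} [Fintype I] (N : ℕ) (x : I → (Z N).A) (hx : ∀ i, io N (x i) = 0) :
    ∃ N₀ : ℕ, ∀ M, N₀ ≤ M → ∀ h : N ≤ M, ∀ i, mp Z φ N M h (x i) = 0 := by
  choose n hn h0 using fun i => h3 N (x i) (hx i)
  refine ⟨∑ i, n i, fun M hM h i => ?_⟩
  have hi : n i ≤ M :=
    (Finset.single_le_sum (f := n) (fun _ _ => Nat.zero_le _) (Finset.mem_univ i)).trans hM
  rw [← mp_mp Z φ N (n i) M (hn i) hi, h0, map_zero]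

theorem mat_lift (h1 : ∀ n x, io (n + 1) (φ n x) = io n x) (h2 : ∀ r, ∃ n x, io n x = r)
    {p q : ℕ} (a : Matrix (Fin p) (Fin q) R) :
    ∃ N₀ : ℕ, ∀ N, N₀ ≤ N → ∃ a' : Matrix (Fin p) (Fin q) (Z N).A, a'.map (io N) = a := by
  obtain ⟨N₀, h⟩ := lift_fin Z φ io h1 h2 (fun ij : Fin p × Fin q => a ij.1 ij.2)
  refine ⟨N₀, fun N hN => ?_⟩
  obtain ⟨y, hy⟩ := h N hN
  exact ⟨fun i j => y (i, j), by ext i j; exact hy (i, j)⟩

theorem mat_zero (h3 : ∀ n x, io n x = 0 → ∃ (m : ℕ) (h : n ≤ m), mp Z φ n m h x = 0)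
    {p q : ℕ} (N : ℕ) (a : Matrix (Fin p) (Fin q) (Z N).A) (ha : a.map (io N) = 0) :
    ∃ N₀ : ℕ, ∀ M, N₀ ≤ M → ∀ h : N ≤ M, a.map (mp Z φ N M h) = 0 := by
  obtain ⟨N₀, h⟩ := zero_fin Z φ io h3 N (fun ij : Fin p × Fin q => a ij.1 ij.2)
    (fun ij => congrFun (congrFun ha ij.1) ij.2)
  exact ⟨N₀, fun M hM hNM => by ext i j; exact h M hM hNM (i, j)⟩

theorem kf (h1 : ∀ n x, io (n + 1) (φ n x) = io n x) (h2 : ∀ r, ∃ n x, io n x = r)
    (h3 : ∀ n x, io n x = 0 → ∃ (m : ℕ) (h : n ≤ m), mp Z φ n m h x = 0)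
    (sol : ∀ n, ∀ (r p q t : ℕ) (a : Matrix (Fin r) (Fin p) (Z n).A)
      (e : Matrix (Fin p) (Fin q) (Z n).A) (h : Matrix (Fin q) (Fin t) (Z n).A),
      a * e = 0 → e * h = 0 → ∃ (s : ℕ) (b : Matrix (Fin p) (Fin s) (Z (n + 1)).A)
        (c : Matrix (Fin s) (Fin q) (Z (n + 1)).A),
        e.map (φ n) = b * c ∧ a.map (φ n) * b = 0 ∧ c * h.map (φ n) = 0) :
    KernelsFlat R := by
  intro r p q t a e h hae heh
  obtain ⟨Na, ha⟩ := mat_lift Z φ io h1 h2 a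
  obtain ⟨Ne, he⟩ := mat_lift Z φ io h1 h2 e
  obtain ⟨Nh, hh⟩ := mat_lift Z φ io h1 h2 h
  obtain ⟨N, hNa, hNe, hNh⟩ : ∃ N, Na ≤ N ∧ Ne ≤ N ∧ Nh ≤ N :=
    ⟨Na + Ne + Nh, by omega, by omega, by omega⟩
  obtain ⟨a', ha'⟩ := ha N hNa
  obtain ⟨e', he'⟩ := he N hNe
  obtain ⟨h', hh'⟩ := hh N hNh
  obtain ⟨M₁, hM₁⟩ := mat_zero Z φ io h3 N (a' * e') (by
    rw [Matrix.map_mul, ha', he', hae])
  obtain ⟨M₂, hM₂⟩ := mat_zero Z φ io h3 N (e' * h') (by
    rw [Matrix.map_mul, he', hh', heh])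
  obtain ⟨M, hM1, hM2, hMN⟩ : ∃ M, M₁ ≤ M ∧ M₂ ≤ M ∧ N ≤ M :=
    ⟨M₁ + M₂ + N, by omega, by omega, by omega⟩
  have e1 := hM₁ M hM1 hMN
  have e2 := hM₂ M hM2 hMN
  rw [Matrix.map_mul] at e1 e2
  obtain ⟨s, b, c, s1, s2, s3⟩ := sol M r p q t _ _ _ e1 e2
  -- pushing a matrix of the stage `M + 1` to the limit
  have push : ∀ {p q : ℕ} (x : Matrix (Fin p) (Fin q) (Z N).A),
      ((x.map (mp Z φ N M hMN)).map (φ M)).map (io (M + 1)) = x.map (io N) := by
    intro p q x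
    ext i j
    simp only [Matrix.map_apply]
    rw [h1, io_mp Z φ io h1]
  refine ⟨s, b.map (io (M + 1)), c.map (io (M + 1)), ?_, ?_, ?_⟩
  · rw [← Matrix.map_mul, ← s1, push, he']
  · rw [← ha', ← push, ← Matrix.map_mul, s2]
    exact Matrix.map_zero _ (map_zero _)
  · rw [← hh', ← push, ← Matrix.map_mul, s3]
    exact Matrix.map_zero _ (map_zero _)

end chain

/-- The stages. -/
noncomputable def Zc {k : Type u} [Field k] (X : TrAlg k) (nx : TrAlg k → TrAlg k) : ℕ → TrAlg k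
  | 0 => X
  | n + 1 => nx (Zc X nx n)

/-- The maps of the chain of the stages. -/
noncomputable def fc {k : Type u} [Field k] (X : TrAlg k) (nx : TrAlg k → TrAlg k)
    (φ : ∀ W : TrAlg k, W.A →ₐ[k] (nx W).A) (n : ℕ) : (Zc X nx n).A →ₐ[k] (Zc X nx (n + 1)).A :=
  φ (Zc X nx n)

end LimAux

open LimAux in
theorem lim : S_Lim.{u} := by
  intro hS k _ X
  choose nx φ hφ1 hφ2 hφ3 using hS k
  obtain ⟨R, iR, iA, io, τ, h1, h2, h3, h4⟩ := exists_lim (Zc X nx) (fc X nx φ)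
    (fun n x => hφ2 (Zc X nx n) x)
  refine ⟨R, iR, iA, io 0, τ, ?_, ?_, fun x => h4 0 x⟩
  · exact kf (Zc X nx) (fc X nx φ) io h1 h2 h3 fun n => hφ3 (Zc X nx n)
  · intro x y
    obtain ⟨n, x', rfl⟩ := h2 x
    obtain ⟨m, y', rfl⟩ := h2 y
    have e1 := io_mp (Zc X nx) (fc X nx φ) io h1 n (n + m) (by omega) x'
    have e2 := io_mp (Zc X nx) (fc X nx φ) io h1 m (n + m) (by omega) y'
    rw [← e1, ← e2, ← map_mul, ← map_mul, h4, h4]
    exact (Zc X nx (n + m)).tr_comm _ _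

end Pool.Agent.WDTwo
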