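import Pool.Agent.Lib.MP_8f66f0_al_Cex.Defs

/-!
# MP_8f66f0_al_Cex: the unit `1 + eps T` is not elementary (module NK)
-/

namespace Pool.Agent.WDTwo

universe u

open Polynomial Matrix

section

variable {R : Type u} [Ring R] {M : Type u} [AddCommGroup M] (τ : R →+ M) {m : ℕ}

/-- The matrix of the constant coefficients. -/
private noncomputable def nk0 (m : ℕ) (R : Type u) [Ring R] :
    Matrix (Fin m) (Fin m) R[X] →+* Matrix (Fin m) (Fin m) R :=
  (constantCoeff : R[X] →+* R).mapMatrix

/-- The matrix of the linear coefficients. -/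
private noncomputable def nk1 (A : Matrix (Fin m) (Fin m) R[X]) : Matrix (Fin m) (Fin m) R :=
  A.map fun p => p.coeff 1

private theorem nk0_apply (A : Matrix (Fin m) (Fin m) R[X]) (i j : Fin m) :
    nk0 m R A i j = (A i j).coeff 0 := rfl

private theorem nk1_apply (A : Matrix (Fin m) (Fin m) R[X]) (i j : Fin m) :
    nk1 A i j = (A i j).coeff 1 := rfl

private theorem nk1_mul (A B : Matrix (Fin m) (Fin m) R[X]) :
    nk1 (A * B) = nk0 m R A * nk1 B + nk1 A * nk0 m R B := by
  ext i j
  rw [nk1_apply, Matrix.add_apply, Matrix.mul_apply, Matrix.mul_apply, Matrix.mul_apply,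
    finsetSum_coeff, ← Finset.sum_add_distrib]
  refine Finset.sum_congr rfl fun k _ => ?_
  rw [mul_coeff_one]
  rfl

private theorem nk1_one : nk1 (1 : Matrix (Fin m) (Fin m) R[X]) = 0 := by
  ext i j
  rw [nk1_apply, Matrix.one_apply, Matrix.zero_apply]
  by_cases h : i = j
  · rw [if_pos h, coeff_one, if_neg one_ne_zero]
  · rw [if_neg h, coeff_zero]

private theorem nk1_add (A B : Matrix (Fin m) (Fin m) R[X]) :
    nk1 (A + B) = nk1 A + nk1 B := by
  ext i j
  rw [nk1_apply, Matrix.add_apply, Matrix.add_apply, coeff_add]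
  rfl

private theorem nk1_single (i j : Fin m) (c : R[X]) :
    nk1 (Matrix.single i j c) = Matrix.single i j (c.coeff 1) := by
  ext a b
  rw [nk1_apply, Matrix.single_apply, Matrix.single_apply]
  by_cases h : i = a ∧ j = b
  · rw [if_pos h, if_pos h]
  · rw [if_neg h, if_neg h, coeff_zero]

private theorem nk0_single (i j : Fin m) (c : R[X]) :
    nk0 m R (Matrix.single i j c) = Matrix.single i j (c.coeff 0) := by
  ext a b
  rw [nk0_apply, Matrix.single_apply, Matrix.single_apply]
  by_cases h : i = a ∧ j = b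
  · rw [if_pos h, if_pos h]
  · rw [if_neg h, if_neg h, coeff_zero]

private theorem nk_tr (hτ : ∀ x y, τ (x * y) = τ (y * x)) (A B : Matrix (Fin m) (Fin m) R) :
    τ (A * B).trace = τ (B * A).trace := by
  simp only [Matrix.trace, Matrix.diag_apply, Matrix.mul_apply, map_sum]
  rw [Finset.sum_comm]
  exact Finset.sum_congr rfl fun i _ => Finset.sum_congr rfl fun j _ => hτ _ _

/-- The logarithmic derivative. -/
private noncomputable def nkD (g : (Matrix (Fin m) (Fin m) R[X])ˣ) : M :=
  τ (nk0 m R g⁻¹.val * nk1 g.val).trace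

private theorem nkD_mul (hτ : ∀ x y, τ (x * y) = τ (y * x))
    (g h : (Matrix (Fin m) (Fin m) R[X])ˣ) : nkD τ (g * h) = nkD τ g + nkD τ h := by
  have e1 : nk0 m R g⁻¹.val * nk0 m R g.val = 1 := by
    rw [← map_mul, Units.inv_mul, map_one]
  have e2 : nk0 m R h.val * nk0 m R h⁻¹.val = 1 := by
    rw [← map_mul, Units.mul_inv, map_one]
  have e3 : nk0 m R (g * h)⁻¹.val * nk1 (g * h).val =
      nk0 m R h⁻¹.val * nk1 h.val +
        nk0 m R h⁻¹.val * (nk0 m R g⁻¹.val * nk1 g.val * nk0 m R h.val) := by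
    rw [_root_.mul_inv_rev, Units.val_mul, Units.val_mul, map_mul, nk1_mul]
    calc nk0 m R h⁻¹.val * nk0 m R g⁻¹.val * (nk0 m R g.val * nk1 h.val + nk1 g.val * nk0 m R h.val)
        = nk0 m R h⁻¹.val * (nk0 m R g⁻¹.val * nk0 m R g.val) * nk1 h.val +
          nk0 m R h⁻¹.val * (nk0 m R g⁻¹.val * nk1 g.val * nk0 m R h.val) := by noncomm_ring
      _ = _ := by rw [e1, mul_one]
  unfold nkD
  rw [e3, Matrix.trace_add, map_add, add_comm]
  congr 1
  rw [nk_tr τ hτ, mul_assoc, e2, mul_one]

end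

theorem nk : S_NK.{u} := by
  intro R _ M _ τ hτ ε hε n g hg hmem
  let Φ : (Matrix (Fin (n + 1)) (Fin (n + 1)) R[X])ˣ →* Multiplicative M :=
    MonoidHom.mk' (fun g => Multiplicative.ofAdd (nkD τ g)) fun g h => by
      rw [nkD_mul τ hτ, ofAdd_add]
  have hker : ∀ u : (Matrix (Fin (n + 1)) (Fin (n + 1)) R[X])ˣ, u ∈ Φ.ker ↔ nkD τ u = 0 := by
    intro u
    rw [MonoidHom.mem_ker]
    exact ofAdd_eq_one
  have hle : Subgroup.closure
        ({u : (Matrix (Fin (n + 1)) (Fin (n + 1)) R[X])ˣ |
            ∃ i j : Fin (n + 1), i ≠ j ∧ ∃ c : R[X], u.val = 1 + Matrix.single i j c} ∪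
         {u : (Matrix (Fin (n + 1)) (Fin (n + 1)) R[X])ˣ |
            ∃ v : (Matrix (Fin (n + 1)) (Fin (n + 1)) R)ˣ, u.val = v.val.map C}) ≤ Φ.ker := by
    rw [Subgroup.closure_le]
    rintro u (⟨i, j, hij, c, hu⟩ | ⟨v, hu⟩)
    · rw [SetLike.mem_coe, hker]
      have hinv : u⁻¹.val = 1 - Matrix.single i j c := by
        refine Units.inv_eq_of_mul_eq_one_right ?_
        rw [hu]
        have : Matrix.single i j c * Matrix.single i j c = 0 :=
          Matrix.single_mul_single_of_ne _ _ _ _ hij.symm _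
        calc (1 + Matrix.single i j c) * (1 - Matrix.single i j c)
            = 1 - Matrix.single i j c * Matrix.single i j c := by noncomm_ring
          _ = 1 := by rw [this, sub_zero]
      unfold nkD
      rw [hinv, hu, map_sub, map_one, nk0_single, nk1_add, nk1_one, nk1_single, zero_add, sub_mul,
        one_mul, Matrix.single_mul_single_of_ne _ _ _ _ hij.symm, sub_zero,
        Matrix.trace_single_eq_of_ne _ _ _ hij, map_zero]
    · rw [SetLike.mem_coe, hker]
      have h1 : nk1 u.val = 0 := by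
        rw [hu]
        ext i j
        rw [nk1_apply, Matrix.map_apply, coeff_C, if_neg one_ne_zero, Matrix.zero_apply]
      unfold nkD
      rw [h1, mul_zero, Matrix.trace_zero, map_zero]
  have h0 := (hker g).1 (hle hmem)
  have hg0 : nk0 (n + 1) R g.val = 1 := by
    rw [hg, map_add, map_one, nk0_single]
    simp
  have hgi : nk0 (n + 1) R g⁻¹.val = 1 := by
    have : nk0 (n + 1) R g⁻¹.val * nk0 (n + 1) R g.val = 1 := by
      rw [← map_mul, Units.inv_mul, map_one]
    rwa [hg0, mul_one] at this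
  unfold nkD at h0
  rw [hgi, one_mul, hg, nk1_add, nk1_one, nk1_single, zero_add, Matrix.trace_single_eq_same] at h0
  simp only [coeff_C_mul, coeff_X_one, mul_one] at h0
  exact hε h0

end Pool.Agent.WDTwo
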