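import Pool.Agent.Lib.MP_8f66f0_al_Cex.Step
import Pool.Agent.Lib.MP_8f66f0_al_Cex.Lim
import Pool.Agent.Lib.MP_8f66f0_al_Cex.NK

/-!
# A ring of weak global dimension at most two with non zero NK_1
-/

namespace Pool.Agent.WDTwo

universe u

/-- The dual numbers. -/
noncomputable def dual (k : Type u) [Field k] : TrAlg k where
  A := DualNumber k
  aug := TrivSqZeroExt.fstHom k k k
  tr := TrivSqZeroExt.sndHom k k
  tr_comm := fun x y => by rw [mul_comm]
  tr_one := by
    change TrivSqZeroExt.snd (1 : TrivSqZeroExt k k) = 0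
    rw [TrivSqZeroExt.snd_one]

/-- There is a ring (an algebra over any given field) in which all kernels of finite matrices are
flat on both sides, with a trace which is not zero on an element of square zero. -/
theorem exists_kernelsFlat_nilpotent (k : Type u) [Field k] :
    ∃ (R : Type u) (_ : Ring R) (_ : Algebra k R) (τ : R →ₗ[k] k) (ε : R),
      KernelsFlat R ∧ (∀ x y, τ (x * y) = τ (y * x)) ∧ ε * ε = 0 ∧ τ ε = 1 := by
  obtain ⟨R, hR, hA, φ, τ, h1, h2, h3⟩ := lim step k (dual k)
  refine ⟨R, hR, hA, τ, φ (DualNumber.eps : DualNumber k), h1, h2, ?_, ?_⟩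
  · rw [← map_mul]
    have : (DualNumber.eps : DualNumber k) * DualNumber.eps = 0 := DualNumber.eps_mul_eps
    exact (congrArg φ this).trans (map_zero φ)
  · rw [h3]
    change TrivSqZeroExt.snd (DualNumber.eps : DualNumber k) = 1
    exact DualNumber.snd_eps

/-- **The counterexample.**  There is a ring `R` of weak global dimension at most two (all kernels
of finite matrices, on both sides, are flat) with an element `eps`, `eps ^ 2 = 0`, such that for
every size the unit `1 + eps T` of `R[T]`, put in the corner of a matrix, is not a product of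
elementary matrices over `R[T]` and of invertible matrices over `R`: `NK_1(R)` is not zero. -/
theorem exists_kernelsFlat_nk (k : Type u) [Field k] :
    ∃ (R : Type u) (_ : Ring R) (_ : Algebra k R) (ε : R),
      KernelsFlat R ∧ ε * ε = 0 ∧
      ∀ (n : ℕ) (g : (Matrix (Fin (n + 1)) (Fin (n + 1)) (Polynomial R))ˣ),
        g.val = 1 + Matrix.single 0 0 (Polynomial.C ε * Polynomial.X) →
        g ∉ Subgroup.closure
          ({u : (Matrix (Fin (n + 1)) (Fin (n + 1)) (Polynomial R))ˣ |
              ∃ i j : Fin (n + 1), i ≠ j ∧ ∃ c : Polynomial R, u.val = 1 + Matrix.single i j c} ∪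
           {u : (Matrix (Fin (n + 1)) (Fin (n + 1)) (Polynomial R))ˣ |
              ∃ v : (Matrix (Fin (n + 1)) (Fin (n + 1)) R)ˣ, u.val = v.val.map Polynomial.C}) := by
  obtain ⟨R, hR, hA, τ, ε, h1, h2, h3, h4⟩ := exists_kernelsFlat_nilpotent k
  refine ⟨R, hR, hA, ε, h1, h3, fun n g hg => ?_⟩
  exact nk R k τ.toAddMonoidHom h2 ε (by
    change τ ε ≠ 0
    rw [h4]
    exact one_ne_zero) n g hg

end Pool.Agent.WDTwo
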