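import Pool.Agent.Lib.MP_8f66f0_al_Cex.Rad

/-!
# The ring of a module and its dual

For a left module `V` over a ring with trace: the monoid algebra of the semigroup `V^* x V` with a
unit, divided by the radical of the trace form.
-/

namespace Pool.Agent.WDTwo

universe u

section

variable {k : Type u} [Field k] (X : TrAlg k) (V : Type u) [AddCommGroup V] [Module X.A V]

/-- Pairs (functional, vector). -/
structure Gam where
  /-- the functional -/
  f : V →ₗ[X.A] X.A
  /-- the vector -/
  v : V

instance gamSemigroup : Semigroup (Gam X V) where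
  mul x y := ⟨x.f, y.f x.v • y.v⟩
  mul_assoc x y z := by
    change (⟨x.f, z.f (y.f x.v • y.v) • z.v⟩ : Gam X V) =
      ⟨x.f, y.f x.v • (z.f y.v • z.v)⟩
    rw [map_smul, smul_smul, smul_eq_mul]

theorem gam_mul (f g : V →ₗ[X.A] X.A) (v w : V) :
    (⟨f, v⟩ : Gam X V) * ⟨g, w⟩ = ⟨f, g v • w⟩ := rfl

/-- The trace of a basis element. -/
def gtr (g : WithOne (Gam X V)) : k :=
  WithOne.recOneCoe (motive := fun _ => k) 0 (fun g => X.tr (g.f g.v)) g

theorem gtr_one : gtr X V 1 = 0 := rfl

theorem gtr_coe (g : Gam X V) : gtr X V (g : WithOne (Gam X V)) = X.tr (g.f g.v) := rfl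

theorem gtr_comm (x y : WithOne (Gam X V)) : gtr X V (x * y) = gtr X V (y * x) := by
  induction x using WithOne.recOneCoe with
  | one => rw [one_mul, mul_one]
  | coe x =>
    induction y using WithOne.recOneCoe with
    | one => rw [one_mul, mul_one]
    | coe y =>
      rw [← WithOne.coe_mul, ← WithOne.coe_mul, gtr_coe, gtr_coe]
      change X.tr (x.f (y.f x.v • y.v)) = X.tr (y.f (x.f y.v • x.v))
      rw [LinearMap.map_smul x.f, LinearMap.map_smul y.f, smul_eq_mul, smul_eq_mul, X.tr_comm]

/-- The trace on the monoid algebra. -/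
noncomputable def mtr : MonoidAlgebra k (WithOne (Gam X V)) →ₗ[k] k :=
  (Finsupp.linearCombination k (gtr X V)) ∘ₗ (MonoidAlgebra.coeffLinearEquiv k).toLinearMap

theorem mtr_single (g : WithOne (Gam X V)) (r : k) :
    mtr X V (MonoidAlgebra.single g r) = r * gtr X V g := by
  simp [mtr]

theorem mtr_comm (x y : MonoidAlgebra k (WithOne (Gam X V))) :
    mtr X V (x * y) = mtr X V (y * x) := by
  induction x using MonoidAlgebra.induction_linear with
  | zero => rw [zero_mul, mul_zero]
  | add x x' hx hx' => rw [add_mul, mul_add, map_add, map_add, hx, hx']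
  | single m r =>
    induction y using MonoidAlgebra.induction_linear with
    | zero => rw [zero_mul, mul_zero]
    | add x x' hx hx' => rw [add_mul, mul_add, map_add, map_add, hx, hx']
    | single m' r' =>
      rw [MonoidAlgebra.single_mul_single, MonoidAlgebra.single_mul_single, mtr_single,
        mtr_single, gtr_comm, mul_comm r r']

theorem mtr_one : mtr X V 1 = 0 := by
  rw [MonoidAlgebra.one_def, mtr_single, gtr_one, mul_zero]

/-- The augmentation on the monoid algebra. -/
noncomputable def maug : MonoidAlgebra k (WithOne (Gam X V)) →ₐ[k] k :=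
  MonoidAlgebra.lift k k (WithOne (Gam X V))
    (WithOne.lift ⟨fun _ => 0, fun _ _ => (mul_zero _).symm⟩)

theorem maug_coe (g : Gam X V) (r : k) :
    maug X V (MonoidAlgebra.single (g : WithOne (Gam X V)) r) = 0 := by
  rw [maug, MonoidAlgebra.lift_single, WithOne.lift_coe]
  exact smul_zero _

/-- The ring of the module. -/
theorem exists_mor :
    ∃ (Y : TrAlg k) (β : (V →ₗ[X.A] X.A) → V → Y.A),
      (∀ f g v w, β f v * β g w = β f (g v • w)) ∧
      (∀ f v w, β f (v + w) = β f v + β f w) ∧
      (∀ f (c : k) v, β f (algebraMap k X.A c • v) = c • β f v) ∧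
      (∀ f v, Y.aug (β f v) = 0) ∧
      (∀ f v, Y.tr (β f v) = X.tr (f v)) ∧
      (∀ (n : ℕ) (f : Fin n → V →ₗ[X.A] X.A) (h : Fin n → X.A) (v : V),
        (∀ w, ∑ j, f j w * h j = 0) → ∑ j, β (f j) (h j • v) = 0) := by
  obtain ⟨Y, π, hπ, haug, htr, hrel⟩ :=
    rad_quot (maug X V) (mtr X V) (mtr_comm X V) (mtr_one X V)
  -- equality test
  have key : ∀ x y : MonoidAlgebra k (WithOne (Gam X V)), maug X V x = maug X V y →
      mtr X V x = mtr X V y →
      (∀ g w, mtr X V (x * MonoidAlgebra.single ((⟨g, w⟩ : Gam X V) : WithOne (Gam X V)) 1) =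
        mtr X V (y * MonoidAlgebra.single ((⟨g, w⟩ : Gam X V) : WithOne (Gam X V)) 1)) →
      π x = π y := by
    intro x y h1 h2 h3
    refine hrel x y h1 fun z => ?_
    induction z using MonoidAlgebra.induction_linear with
    | zero => rw [mul_zero, mul_zero]
    | add z z' hz hz' => rw [mul_add, mul_add, map_add, map_add, hz, hz']
    | single m r =>
      have hs : MonoidAlgebra.single m r = r • MonoidAlgebra.single m (1 : k) := by
        rw [MonoidAlgebra.smul_single, smul_eq_mul, mul_one]
      rw [hs, mul_smul_comm, mul_smul_comm, map_smul, map_smul]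
      congr 1
      induction m using WithOne.recOneCoe with
      | one =>
        rw [← MonoidAlgebra.one_def, mul_one, mul_one, h2]
      | coe g => exact h3 g.f g.v
  let e : (V →ₗ[X.A] X.A) → V → MonoidAlgebra k (WithOne (Gam X V)) := fun f v =>
    MonoidAlgebra.single ((⟨f, v⟩ : Gam X V) : WithOne (Gam X V)) 1
  have he : ∀ f v, mtr X V (e f v) = X.tr (f v) := by
    intro f v
    rw [mtr_single, one_mul, gtr_coe]
  have hee : ∀ f g v w, e f v * e g w = e f (g v • w) := by
    intro f g v w
    change MonoidAlgebra.single _ _ * MonoidAlgebra.single _ _ = _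
    rw [MonoidAlgebra.single_mul_single, ← WithOne.coe_mul, mul_one, gam_mul]
  have hte : ∀ f g v w, mtr X V (e f v * e g w) = X.tr (g v * f w) := by
    intro f g v w
    rw [hee, he, map_smul, smul_eq_mul]
  have hae : ∀ f v, maug X V (e f v) = 0 := fun f v => maug_coe X V _ _
  refine ⟨Y, fun f v => π (e f v), ?_, ?_, ?_, ?_, ?_, ?_⟩
  · intro f g v w
    rw [← map_mul, hee]
  · intro f v w
    rw [← map_add]
    refine key _ _ ?_ ?_ ?_
    · rw [map_add, hae, hae, hae, add_zero]
    · rw [map_add, he, he, he, map_add, map_add]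
    · intro g w'
      change mtr X V (e f (v + w) * e g w') = mtr X V ((e f v + e f w) * e g w')
      rw [add_mul, map_add, hte, hte, hte, map_add, add_mul, map_add]
  · intro f c v
    rw [← map_smul]
    refine key _ _ ?_ ?_ ?_
    · rw [map_smul, hae, hae, smul_zero]
    · rw [map_smul, he, he, map_smul, smul_eq_mul, ← Algebra.smul_def, map_smul]
    · intro g w'
      change mtr X V (e f (algebraMap k X.A c • v) * e g w') = mtr X V ((c • e f v) * e g w')
      rw [smul_mul_assoc, map_smul, hte, hte, map_smul, smul_eq_mul, mul_assoc,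
        ← Algebra.smul_def, map_smul]
  · intro f v
    rw [haug, hae]
  · intro f v
    rw [htr, he]
  · intro n f h v hf
    rw [← map_sum, ← map_zero π]
    refine key _ _ ?_ ?_ ?_
    · rw [map_sum, map_zero]
      exact Finset.sum_eq_zero fun j _ => hae _ _
    · rw [map_sum, map_zero]
      have : ∀ j, mtr X V (e (f j) (h j • v)) = X.tr (f j v * h j) := by
        intro j
        rw [he, map_smul, smul_eq_mul, X.tr_comm]
      rw [Finset.sum_congr rfl fun j _ => this j, ← map_sum, hf, map_zero]
    · intro g w
      change mtr X V ((∑ j, e (f j) (h j • v)) * e g w) = mtr X V (0 * e g w)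
      rw [zero_mul, map_zero, Finset.sum_mul, map_sum]
      have : ∀ j, mtr X V (e (f j) (h j • v) * e g w) = X.tr (g v * (f j w * h j)) := by
        intro j
        rw [hte, map_smul, smul_eq_mul, mul_assoc, X.tr_comm, mul_assoc]
      rw [Finset.sum_congr rfl fun j _ => this j, ← map_sum, ← Finset.mul_sum, hf, mul_zero,
        map_zero]

end

end Pool.Agent.WDTwo
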