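import Pool.Agent.Lib.MP_8f66f0_al_Cex.Defs

/-!
# Dividing by the radical of a trace form
-/

namespace Pool.Agent.WDTwo

universe u

section

variable {k : Type u} [Field k] {B : Type u} [Ring B] [Algebra k B]

/-- The congruence: equal augmentation and equal in the trace form. -/
def radCon (aug : B →ₐ[k] k) (τ : B →ₗ[k] k) (hτ : ∀ x y, τ (x * y) = τ (y * x)) : RingCon B where
  r x y := aug x = aug y ∧ ∀ z, τ (x * z) = τ (y * z)
  iseqv :=
    { refl := fun _ => ⟨rfl, fun _ => rfl⟩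
      symm := fun h => ⟨h.1.symm, fun z => (h.2 z).symm⟩
      trans := fun h h' => ⟨h.1.trans h'.1, fun z => (h.2 z).trans (h'.2 z)⟩ }
  add' := by
    rintro w x y z ⟨h1, h2⟩ ⟨h3, h4⟩
    refine ⟨by rw [map_add, map_add, h1, h3], fun t => ?_⟩
    rw [add_mul, add_mul, map_add, map_add, h2, h4]
  mul' := by
    rintro w x y z ⟨h1, h2⟩ ⟨h3, h4⟩
    refine ⟨by rw [map_mul, map_mul, h1, h3], fun t => ?_⟩
    rw [mul_assoc, h2, hτ, mul_assoc, h4, ← mul_assoc, hτ, mul_assoc]

theorem rad_quot (aug : B →ₐ[k] k) (τ : B →ₗ[k] k) (hτ : ∀ x y, τ (x * y) = τ (y * x))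
    (h1 : τ 1 = 0) :
    ∃ (Y : TrAlg k) (π : B →ₐ[k] Y.A), Function.Surjective π ∧ (∀ x, Y.aug (π x) = aug x) ∧
      (∀ x, Y.tr (π x) = τ x) ∧
      ∀ x y, aug x = aug y → (∀ z, τ (x * z) = τ (y * z)) → π x = π y := by
  let c := radCon aug τ hτ
  let π : B →ₐ[k] c.Quotient := RingCon.mkₐ k c
  have hπ : Function.Surjective π := RingCon.mkₐ_surjective (α := k) c
  have heq : ∀ x y, π x = π y ↔ (aug x = aug y ∧ ∀ z, τ (x * z) = τ (y * z)) := by
    intro x y
    exact RingCon.eq (c := c)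
  have hker : LinearMap.ker π.toLinearMap ≤ LinearMap.ker τ := by
    intro x hx
    have h0 : π x = π 0 := by rw [map_zero]; exact hx
    have := ((heq x 0).1 h0).2 1
    rw [mul_one, mul_one, map_zero] at this
    exact this
  have hkera : LinearMap.ker π.toLinearMap ≤ LinearMap.ker aug.toLinearMap := by
    intro x hx
    have h0 : π x = π 0 := by rw [map_zero]; exact hx
    have := ((heq x 0).1 h0).1
    rw [map_zero] at this
    exact this
  let tr : c.Quotient →ₗ[k] k :=
    (Submodule.liftQ _ τ hker) ∘ₗ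
      (π.toLinearMap.quotKerEquivOfSurjective hπ).symm.toLinearMap
  have htr : ∀ x, tr (π x) = τ x := by
    intro x
    have : (π.toLinearMap.quotKerEquivOfSurjective hπ).symm (π x) =
        Submodule.Quotient.mk x := by
      rw [LinearEquiv.symm_apply_eq]
      rfl
    change Submodule.liftQ _ τ hker ((π.toLinearMap.quotKerEquivOfSurjective hπ).symm (π x)) = _
    rw [this]
    rfl
  let au : c.Quotient →ₐ[k] k := c.liftₐ aug (by
    intro x y hxy
    exact hxy.1)
  refine ⟨⟨c.Quotient, au, tr, ?_, ?_⟩, π, hπ, fun x => rfl, htr, fun x y h h' =>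
    (heq x y).2 ⟨h, h'⟩⟩
  · intro x y
    obtain ⟨x, rfl⟩ := hπ x
    obtain ⟨y, rfl⟩ := hπ y
    rw [← map_mul, ← map_mul, htr, htr, hτ]
  · rw [← map_one π, htr, h1]

end

end Pool.Agent.WDTwo
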