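import Pool.Agent.Lib.MP_8f66f0_al_Cex.Mor

/-!
# One step: all equations are solved
-/

namespace Pool.Agent.WDTwo

open Matrix

universe u

/-- Generalised inverses of matrices over a field. -/
theorem exists_ginv (k : Type u) [Field k] {p q : ℕ} (E : Matrix (Fin p) (Fin q) k) :
    ∃ g : Matrix (Fin q) (Fin p) k, E * g * E = E := by
  let f : (Fin q → k) →ₗ[k] (Fin p → k) := Matrix.toLin' E
  obtain ⟨g1, hg1⟩ := f.rangeRestrict.exists_rightInverse_of_surjective
    (LinearMap.range_rangeRestrict f)
  obtain ⟨g, hg⟩ := LinearMap.exists_extend g1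
  refine ⟨LinearMap.toMatrix' g, ?_⟩
  apply Matrix.toLin'.injective
  rw [Matrix.toLin'_mul, Matrix.toLin'_mul, Matrix.toLin'_toMatrix']
  refine LinearMap.ext fun x => ?_
  change f (g (f x)) = f x
  have h1 : g (f x) = g1 (f.rangeRestrict x) := by
    rw [← hg]
    rfl
  have h2 : f.rangeRestrict (g1 (f.rangeRestrict x)) = f.rangeRestrict x := by
    have := LinearMap.congr_fun hg1 (f.rangeRestrict x)
    exact this
  have h3 := congrArg Subtype.val h2
  rw [h1]
  exact h3

section

variable {k : Type u} [Field k] (X : TrAlg k) (V : Type u) [AddCommGroup V] [Module X.A V]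

/-- The step, for a module which contains the ring as a direct summand. -/
theorem exists_pt (f0 : V →ₗ[X.A] X.A) (v0 : V) (h0 : f0 v0 = 1) :
    ∃ (Y : TrAlg k) (φ : X.A →ₐ[k] Y.A),
      (∀ x, Y.aug (φ x) = X.aug x) ∧ (∀ x, Y.tr (φ x) = X.tr x) ∧
      ∀ (r p q t : ℕ) (a : Matrix (Fin r) (Fin p) X.A) (e : Matrix (Fin p) (Fin q) X.A)
        (h : Matrix (Fin q) (Fin t) X.A), a * e = 0 → e * h = 0 →
        ∀ (w : Fin p → V) (f : Fin q → V →ₗ[X.A] X.A),
        (∀ l, ∑ i, a l i • w i = 0) → (∀ i j, f j (w i) = e i j) →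
        (∀ (x : V) (m : Fin t), ∑ j, f j x * h j m = 0) →
        ∃ (s : ℕ) (b : Matrix (Fin p) (Fin s) Y.A) (c : Matrix (Fin s) (Fin q) Y.A),
          e.map φ = b * c ∧ a.map φ * b = 0 ∧ c * h.map φ = 0 := by
  obtain ⟨Y, β, hmul, hadd, hsm, haug, htr, hrel⟩ := exists_mor X V
  have hzero : ∀ f, β f 0 = 0 := by
    intro f
    have := hadd f 0 0
    rw [add_zero] at this
    exact left_eq_add.1 this
  have hsum : ∀ (n : ℕ) f (v : Fin n → V), β f (∑ i, v i) = ∑ i, β f (v i) := by
    intro n f v
    let B : V →+ Y.A := ⟨⟨β f, hzero f⟩, hadd f⟩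
    exact map_sum B v Finset.univ
  set u : Y.A := 1 - β f0 v0 with hu
  have huB : ∀ w, u * β f0 w = 0 := by
    intro w
    rw [hu, sub_mul, one_mul, hmul, h0, one_smul, sub_self]
  have hCu : ∀ f, β f v0 * u = 0 := by
    intro f
    rw [hu, mul_sub, mul_one, hmul, h0, one_smul, sub_self]
  have hBu : ∀ x : X.A, β f0 (x • v0) * u = 0 := by
    intro x
    rw [hu, mul_sub, mul_one, hmul, map_smul, h0, smul_eq_mul, mul_one, sub_self]
  have huu : u * u = u := by
    conv_lhs => rw [hu, sub_mul, one_mul, hCu, sub_zero]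
  let φ0 : X.A → Y.A := fun x => X.aug x • u + β f0 (x • v0)
  let φ : X.A →ₐ[k] Y.A :=
    { toFun := φ0
      map_one' := by
        change X.aug 1 • u + β f0 ((1 : X.A) • v0) = 1
        rw [map_one, one_smul, one_smul, hu, sub_add_cancel]
      map_mul' := by
        intro x y
        change X.aug (x * y) • u + β f0 ((x * y) • v0) =
          (X.aug x • u + β f0 (x • v0)) * (X.aug y • u + β f0 (y • v0))
        rw [map_mul, add_mul, mul_add, mul_add, smul_mul_smul_comm, huu, smul_mul_assoc, huB,
          mul_smul_comm, hBu, hmul, map_smul, h0, smul_eq_mul, mul_one, smul_zero, smul_zero,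
          add_zero, zero_add, smul_smul]
      map_zero' := by
        change X.aug 0 • u + β f0 ((0 : X.A) • v0) = 0
        rw [map_zero, zero_smul, zero_smul, hzero, add_zero]
      map_add' := by
        intro x y
        change X.aug (x + y) • u + β f0 ((x + y) • v0) =
          (X.aug x • u + β f0 (x • v0)) + (X.aug y • u + β f0 (y • v0))
        rw [map_add, add_smul, add_smul, hadd]
        abel
      commutes' := by
        intro c
        change X.aug (algebraMap k X.A c) • u + β f0 (algebraMap k X.A c • v0) = _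
        rw [AlgHom.commutes, hsm, Algebra.algebraMap_self_apply, hu, smul_sub, sub_add_cancel,
          Algebra.algebraMap_eq_smul_one] }
  have hφ : ∀ x, φ x = X.aug x • u + β f0 (x • v0) := fun x => rfl
  have hφB : ∀ x w, φ x * β f0 w = β f0 (x • w) := by
    intro x w
    rw [hφ, add_mul, smul_mul_assoc, huB, smul_zero, zero_add, hmul, map_smul, h0, smul_eq_mul,
      mul_one]
  have hCφ : ∀ f x, β f v0 * φ x = β f (x • v0) := by
    intro f x
    rw [hφ, mul_add, mul_smul_comm, hCu, smul_zero, zero_add, hmul, h0, one_smul]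
  have huφ : ∀ x, u * φ x = X.aug x • u := by
    intro x
    rw [hφ, mul_add, mul_smul_comm, huu, huB, add_zero]
  have hφu : ∀ x, φ x * u = X.aug x • u := by
    intro x
    rw [hφ, add_mul, smul_mul_assoc, huu, hBu, add_zero]
  refine ⟨Y, φ, ?_, ?_, ?_⟩
  · intro x
    rw [hφ, map_add, haug, add_zero, map_smul, hu, map_sub, map_one, haug, sub_zero, smul_eq_mul,
      mul_one]
  · intro x
    rw [hφ, map_add, htr, map_smul, hu, map_sub, Y.tr_one, htr, h0, X.tr_one, sub_zero,
      smul_zero, zero_add, LinearMap.map_smul f0, h0, smul_eq_mul, mul_one]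
  · intro r p q t a e h hae heh w f hw hf hfh
    obtain ⟨g, hg⟩ := exists_ginv k (e.map X.aug)
    have haeA : a.map X.aug * e.map X.aug = 0 := by
      rw [← Matrix.map_mul, hae, Matrix.map_zero _ (map_zero _)]
    have hehA : e.map X.aug * h.map X.aug = 0 := by
      rw [← Matrix.map_mul, heh, Matrix.map_zero _ (map_zero _)]
    refine ⟨q + 1,
      Matrix.of fun (i : Fin p) (l : Fin (q + 1)) =>
        (Fin.cons (β f0 (w i)) (fun l => e.map X.aug i l • u) : Fin (q + 1) → Y.A) l,
      Matrix.of fun (l : Fin (q + 1)) (j : Fin q) =>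
        (Fin.cons (β (f j) v0) (fun l => (g * e.map X.aug) l j • u) : Fin (q + 1) → Y.A) l,
      ?_, ?_, ?_⟩
    · ext i j
      rw [Matrix.mul_apply, Fin.sum_univ_succ]
      simp only [Matrix.of_apply, Fin.cons_zero, Fin.cons_succ]
      rw [hmul, hf]
      have : ∀ l, (e.map X.aug i l • u) * ((g * e.map X.aug) l j • u) =
          (e.map X.aug i l * (g * e.map X.aug) l j) • u := by
        intro l
        rw [smul_mul_smul_comm, huu]
      rw [Finset.sum_congr rfl fun l _ => this l, ← Finset.sum_smul, ← Matrix.mul_apply,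
        ← Matrix.mul_assoc, hg, Matrix.map_apply, Matrix.map_apply, hφ, add_comm]
    · ext l m
      rw [Matrix.mul_apply, Matrix.zero_apply]
      refine Fin.cases ?_ (fun m => ?_) m
      · simp only [Matrix.of_apply, Fin.cons_zero, Matrix.map_apply]
        rw [Finset.sum_congr rfl fun i _ => hφB (a l i) (w i), ← hsum, hw, hzero]
      · simp only [Matrix.of_apply, Fin.cons_succ, Matrix.map_apply]
        have : ∀ i, φ (a l i) * (X.aug (e i m) • u) =
            (a.map X.aug l i * e.map X.aug i m) • u := by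
          intro i
          rw [mul_smul_comm, hφu, smul_smul, mul_comm, Matrix.map_apply, Matrix.map_apply]
        rw [Finset.sum_congr rfl fun i _ => this i, ← Finset.sum_smul, ← Matrix.mul_apply,
          haeA, Matrix.zero_apply, zero_smul]
    · ext l m
      rw [Matrix.mul_apply, Matrix.zero_apply]
      refine Fin.cases ?_ (fun l => ?_) l
      · simp only [Matrix.of_apply, Fin.cons_zero, Matrix.map_apply]
        rw [Finset.sum_congr rfl fun j _ => hCφ (f j) (h j m)]
        exact hrel q f (fun j => h j m) v0 fun x => hfh x m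
      · simp only [Matrix.of_apply, Fin.cons_succ, Matrix.map_apply]
        have : ∀ j, ((g * e.map X.aug) l j • u) * φ (h j m) =
            ((g * e.map X.aug) l j * h.map X.aug j m) • u := by
          intro j
          rw [smul_mul_assoc, huφ, smul_smul, Matrix.map_apply]
        rw [Finset.sum_congr rfl fun j _ => this j, ← Finset.sum_smul, ← Matrix.mul_apply,
          Matrix.mul_assoc, hehA, Matrix.mul_zero, Matrix.zero_apply, zero_smul]

/-- All finite matrices. -/
abbrev HMat (A : Type u) : Type u := (q : ℕ) × (t : ℕ) × Matrix (Fin q) (Fin t) A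

/-- The product of all left kernels of finite matrices. -/
def KV (A : Type u) [Ring A] : Submodule A ((h : HMat A) → (Fin h.1 → A)) where
  carrier := {x | ∀ h : HMat A, x h ᵥ* h.2.2 = 0}
  zero_mem' := fun h => by
    change (0 : Fin h.1 → A) ᵥ* h.2.2 = 0
    rw [Matrix.zero_vecMul]
  add_mem' := fun {x y} hx hy h => by
    change (x h + y h) ᵥ* h.2.2 = 0
    rw [Matrix.add_vecMul, hx, hy, add_zero]
  smul_mem' := fun c x hx h => by
    change (c • x h) ᵥ* h.2.2 = 0
    rw [Matrix.smul_vecMul, hx, smul_zero]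

/-- One step. -/
theorem step : S_Step.{u} := by
  classical
  intro k _ X
  obtain ⟨Y, φ, h1, h2, h3⟩ := exists_pt X (X.A × KV X.A) (LinearMap.fst X.A X.A (KV X.A)) (1, 0) rfl
  refine ⟨Y, φ, h1, h2, ?_⟩
  intro r p q t a e h hae heh
  let H : HMat X.A := ⟨q, t, h⟩
  have hmem : ∀ i, (Pi.single H (e i) : (h : HMat X.A) → (Fin h.1 → X.A)) ∈ KV X.A := by
    intro i H'
    by_cases hH : H' = H
    · subst hH
      rw [Pi.single_eq_same]
      change (e i) ᵥ* h = 0
      rw [← Matrix.mul_apply_eq_vecMul, heh]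
      rfl
    · rw [Pi.single_eq_of_ne hH, Matrix.zero_vecMul]
  refine h3 r p q t a e h hae heh (fun i => (0, ⟨Pi.single H (e i), hmem i⟩))
    (fun j => (LinearMap.proj j) ∘ₗ (LinearMap.proj H) ∘ₗ (KV X.A).subtype ∘ₗ
      LinearMap.snd X.A X.A (KV X.A)) ?_ ?_ ?_
  · intro l
    refine Prod.ext ?_ ?_
    · rw [Prod.fst_sum]
      exact Finset.sum_eq_zero fun i _ => smul_zero _
    · rw [Prod.snd_sum]
      apply Subtype.ext
      rw [AddSubmonoidClass.coe_finsetSum]
      change ∑ i, a l i • (Pi.single H (e i) : (h : HMat X.A) → (Fin h.1 → X.A)) = 0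
      funext H'
      rw [Finset.sum_apply]
      by_cases hH : H' = H
      · subst hH
        change ∑ i, a l i • (Pi.single H (e i) : (h : HMat X.A) → (Fin h.1 → X.A)) H = 0
        simp only [Pi.single_eq_same]
        funext j
        rw [Finset.sum_apply]
        have := congrFun (congrFun hae l) j
        rw [Matrix.mul_apply] at this
        exact this
      · refine Finset.sum_eq_zero fun i _ => ?_
        change a l i • (Pi.single H (e i) : (h : HMat X.A) → (Fin h.1 → X.A)) H' = 0
        rw [Pi.single_eq_of_ne hH, smul_zero]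
  · intro i j
    change (Pi.single H (e i) : (h : HMat X.A) → (Fin h.1 → X.A)) H j = e i j
    rw [Pi.single_eq_same]
  · intro x m
    have := congrFun (x.2.2 H) m
    exact this

end

end Pool.Agent.WDTwo
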